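import Pool.Agent.H22.Sof2

namespace Pool.Agent.Results.MP_6ea370_an.Values

open Filter Topology

/-- a sofic approximation of `G` -/
structure Approx (G : Type) [Group G] where
  K : ℕ → Type
  fin : ∀ n, Finite (K n)
  π : ∀ n, G → Equiv.Perm (K n)
  mul : ∀ s t : G, Tendsto (fun n =>
    (Set.ncard {k : K n | π n (s * t) k = π n s (π n t k)} : ℝ) / Nat.card (K n)) atTop (𝓝 1)
  free : ∀ s : G, s ≠ 1 → Tendsto (fun n =>
    (Set.ncard {k : K n | π n s k ≠ k} : ℝ) / Nat.card (K n)) atTop (𝓝 1)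

/-- `X` is given by a finite set of forbidden patterns; `(t x) s = x (t⁻¹ s)` -/
def IsSFT {G A : Type} [Group G] (X : Set (G → A)) : Prop :=
  ∃ P : Set (Σ F : Finset G, (F → A)), P.Finite ∧
    X = {x | ∀ t : G, ∀ q ∈ P, (fun s : q.1 => x (t⁻¹ * s)) ≠ q.2}

/-- the microstates `Ω_n(F, δ)` -/
def Om {G A : Type} [Group G] (S : Approx G) (X : Set (G → A)) (n : ℕ) (F : Finset G) (δ : ℝ) :
    Set (S.K n → A) :=
  {ω | (1 - δ) * Nat.card (S.K n) ≤
    (Set.ncard {k : S.K n | ∃ x ∈ X, ∀ s ∈ F, ω (S.π n s⁻¹ k) = x s} : ℝ)}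

open Classical in
/-- sofic topological entropy, with `log 0 = -∞` -/
noncomputable def ent {G A : Type} [Group G] (S : Approx G) (X : Set (G → A)) : EReal :=
  ⨅ F : Finset G, ⨅ δ : ℝ, ⨅ _ : 0 < δ, limsup (fun n => if Om S X n F δ = ∅ then (⊥ : EReal) else
    ((Real.log (Om S X n F δ).ncard / Nat.card (S.K n) : ℝ) : EReal)) atTop

section proof

open Finset Equiv Pool.Agent.H22.Sof

lemma range_ent {G A : Type} [Group G] [Finite A] (S : Approx G) (X : Set (G → A)) :
    ent S X = ⊥ ∨ ∃ x : ℝ, 0 ≤ x ∧ ent S X = x := by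
  classical
  have h1 : ent S X ≤ (Real.log (Nat.card A + 1) : ℝ) := by
    refine iInf_le_of_le ∅ (iInf_le_of_le 1 (iInf_le_of_le one_pos
      (limsup_le_of_le (by isBoundedDefault) (Eventually.of_forall fun n => ?_))))
    split_ifs with h
    · exact bot_le
    · have := S.fin n
      have l0 : 0 ≤ Real.log (Nat.card A + 1) :=
        Real.log_nonneg (by linarith [Nat.cast_nonneg (α := ℝ) (Nat.card A)])
      refine EReal.coe_le_coe_iff.2 (div_le_of_le_mul₀ (by positivity) l0 ?_)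
      rw [mul_comm, ← Real.log_pow]
      refine Real.log_le_log (by
        exact_mod_cast (Set.ncard_pos (Set.toFinite _)).2 (Set.nonempty_iff_ne_empty.2 h)) ?_
      have h2 := (Set.ncard_le_card (Om S X n ∅ 1)).trans (Nat.card_fun.le.trans
        (Nat.pow_le_pow_left (Nat.le_succ _) _))
      exact_mod_cast h2
  by_cases hb : ent S X = ⊥
  · exact Or.inl hb
  have h0 : 0 ≤ ent S X := by
    refine le_iInf fun F => le_iInf fun δ => le_iInf fun hδ => ?_
    by_cases h : ∃ᶠ n in atTop, Om S X n F δ ≠ ∅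
    · refine le_limsup_of_frequently_le (h.mono fun n hn => ?_)
      rw [if_neg hn]
      exact EReal.coe_nonneg.2 (div_nonneg (Real.log_natCast_nonneg _) (by positivity))
    · refine absurd (le_bot_iff.1 (iInf_le_of_le F (iInf_le_of_le δ (iInf_le_of_le hδ
        (limsup_le_of_le (by isBoundedDefault) ?_))))) hb
      filter_upwards [not_frequently.1 h] with n hn
      rw [if_pos (not_not.1 hn)]
  refine Or.inr ⟨(ent S X).toReal, EReal.toReal_nonneg h0, (EReal.coe_toReal ?_ hb).symm⟩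
  exact ne_top_of_le_ne_top (EReal.coe_ne_top _) h1

lemma nc {K : Type} [Fintype K] (P : K → Prop) [DecidablePred P] :
    Set.ncard {k | P k} = #{k | P k} := by
  rw [← Set.ncard_coe_finset, coe_filter]; simp

lemma split {a b : ℕ} (P : (Fin a × Bool) ⊕ Fin b → Prop) [DecidablePred P] :
    (#{k | P k} : ℝ) = #{k | P (.inl (k, true))} + #{k | P (.inl (k, false))} +
      #{k | P (.inr k)} := by
  simp only [card_filter, Fintype.sum_sum_type, Fintype.sum_prod_type, Fintype.sum_bool,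
    sum_add_distrib]
  push_cast; rfl

abbrev D := Option Bool × Option Bool
def io : Option Bool → Option Bool := Option.map not
def ff (x : D) : D := (io x.2, io x.1)

variable {r : ℕ}

noncomputable def m1 (p : ℝ) (n : ℕ) : ℕ := ⌊p * n⌋₊
noncomputable def m2 (p : ℝ) (n : ℕ) : ℕ := 2 * (n - m1 p n)
abbrev KK (p : ℝ) (n : ℕ) := (Fin (m1 p n) × Bool) ⊕ Fin (m2 p n)

lemma m1_le {p : ℝ} (h0 : 0 < p) (n : ℕ) : (m1 p n : ℝ) ≤ p * n := Nat.floor_le (by positivity)
lemma m2_eq {p : ℝ} (h0 : 0 < p) (h1 : p < 1) (n : ℕ) : (m2 p n : ℝ) = 2 * n - 2 * m1 p n := by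
  have : (m1 p n : ℝ) ≤ n := (m1_le h0 n).trans (by nlinarith [Nat.cast_nonneg (α := ℝ) n])
  rw [m2, Nat.cast_mul, Nat.cast_sub (by exact_mod_cast this)]; push_cast; ring
lemma cardK {p : ℝ} (h0 : 0 < p) (h1 : p < 1) (n : ℕ) : (Nat.card (KK p n) : ℝ) = 2 * n := by
  simp [m2_eq h0 h1]; ring
lemma m1_lim {p : ℝ} (h0 : 0 < p) : Tendsto (m1 p) atTop atTop :=
  tendsto_nat_floor_atTop.comp (tendsto_natCast_atTop_atTop.const_mul_atTop h0)
lemma m2_ge {p : ℝ} (h0 : 0 < p) (h1 : p < 1) (n : ℕ) : 2 * (1 - p) * n ≤ m2 p n := by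
  rw [m2_eq h0 h1]; linarith [m1_le h0 n]
lemma m2_lim {p : ℝ} (h0 : 0 < p) (h1 : p < 1) : Tendsto (m2 p) atTop atTop :=
  tendsto_natCast_atTop_iff.1 (tendsto_atTop_mono (m2_ge h0 h1)
    (tendsto_natCast_atTop_atTop.const_mul_atTop (by linarith)))
lemma m1_div {p : ℝ} (h0 : 0 < p) : Tendsto (fun n : ℕ => (m1 p n : ℝ) / n) atTop (𝓝 p) :=
  (tendsto_nat_floor_mul_div_atTop h0.le).comp tendsto_natCast_atTop_atTop

noncomputable def act (s : ∀ m : ℕ, Fin r → Perm (Fin m)) (p : ℝ) (n : ℕ)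
    (g : FreeGroup (Fin r)) : Perm (KK p n) :=
  sumCongr (prodCongr (FreeGroup.lift (s (m1 p n)) g) (FreeGroup.lift (fun _ => boolNot) g))
    (FreeGroup.lift (s (m2 p n)) g)

lemma act_mul (s : ∀ m : ℕ, Fin r → Perm (Fin m)) (p : ℝ) (n : ℕ) (g h : FreeGroup (Fin r))
    (k : KK p n) : act s p n (g * h) k = act s p n g (act s p n h k) := by
  rcases k with ⟨k, b⟩ | k <;> simp [act]

lemma act_one (s : ∀ m : ℕ, Fin r → Perm (Fin m)) (p : ℝ) (n : ℕ) (k : KK p n) :
    act s p n 1 k = k := by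
  rcases k with ⟨k, b⟩ | k <;> simp [act]

lemma act_l (s : ∀ m : ℕ, Fin r → Perm (Fin m)) (p : ℝ) (n : ℕ) (i : Fin r) (k) (b : Bool) :
    act s p n (FreeGroup.of i)⁻¹ (.inl (k, b)) = .inl ((s _ i)⁻¹ k, !b) := by
  cases b <;> simp [act]

lemma act_r (s : ∀ m : ℕ, Fin r → Perm (Fin m)) (p : ℝ) (n : ℕ) (i : Fin r) (k) :
    act s p n (FreeGroup.of i)⁻¹ (.inr k) = .inr ((s _ i)⁻¹ k) := by
  simp [act]

noncomputable def appr (s : ∀ m : ℕ, Fin r → Perm (Fin m)) {p : ℝ} (h0 : 0 < p) (h1 : p < 1)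
    (hs : ∀ g : FreeGroup (Fin r), g ≠ 1 → ∀ θ : ℝ, 0 < θ → ∀ᶠ m in atTop,
      (#{k | FreeGroup.lift (s m) g k = k} : ℝ) ≤ θ * m) : Approx (FreeGroup (Fin r)) where
  K := KK p
  fin := inferInstance
  π := act s p
  mul g h := by
    refine tendsto_const_nhds.congr' ?_
    filter_upwards [eventually_gt_atTop 0] with n hn
    simp only [act_mul, Set.ofPred_true, Set.ncard_univ]
    rw [div_self]; rw [cardK h0 h1]; positivity
  free g hg := by
    refine Metric.tendsto_nhds.2 fun θ hθ => ?_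
    filter_upwards [(m1_lim h0).eventually (hs g hg (θ / 2) (by positivity)),
      (m2_lim h0 h1).eventually (hs g hg (θ / 2) (by positivity)), eventually_gt_atTop 0]
      with n a1 a2 hn
    have n0 : (0 : ℝ) < n := by exact_mod_cast hn
    have e := card_filter_add_card_filter_not (s := univ) (fun k => act s p n g k = k)
    rw [card_univ, ← Nat.card_eq_fintype_card] at e
    have e' := congrArg (Nat.cast (R := ℝ)) e
    rw [Nat.cast_add, cardK h0 h1, split] at e'
    have b1 : ∀ b, (#{k | act s p n g (.inl (k, b)) = .inl (k, b)} : ℝ) ≤ θ / 2 * m1 p n :=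
      fun b => le_trans (Nat.cast_le.2 (card_le_card fun k hk => mem_filter.2
        ⟨mem_univ _, congrArg Prod.fst (Sum.inl.inj (mem_filter.1 hk).2)⟩)) a1
    have b2 : (#{k | act s p n g (.inr k) = .inr k} : ℝ) ≤ θ / 2 * m2 p n :=
      le_trans (Nat.cast_le.2 (card_le_card fun k hk => mem_filter.2
        ⟨mem_univ _, Sum.inr.inj (mem_filter.1 hk).2⟩)) a2
    rw [m2_eq h0 h1] at b2
    rw [nc, cardK h0 h1, Real.dist_eq, abs_lt, lt_sub_iff_add_lt, sub_lt_iff_lt_add,
      lt_div_iff₀ (by positivity), div_lt_iff₀ (by positivity)]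
    have c1 := b1 true; have c2 := b1 false
    have d1 := Nat.cast_nonneg (α := ℝ) #{k | act s p n g (.inl (k, true)) = .inl (k, true)}
    have d2 := Nat.cast_nonneg (α := ℝ) #{k | act s p n g (.inl (k, false)) = .inl (k, false)}
    have d3 := Nat.cast_nonneg (α := ℝ) #{k | act s p n g (.inr k) = .inr k}
    have : 0 < θ * n := by positivity
    constructor <;> nlinarith

abbrev Al (a : ℕ) := Option (Bool × Fin a)
def cc {a : ℕ} (y : Al a) : Option Bool := y.map Prod.fst
def XX (r a : ℕ) : Set (FreeGroup (Fin r) → Al a) :=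
  {x | ∀ g i, cc (x (g * FreeGroup.of i)) = io (cc (x g))}

lemma sft (r a : ℕ) : IsSFT (XX r a) := by
  classical
  refine ⟨⋃ i : Fin r, Sigma.mk {1, FreeGroup.of i} ''
    {q | cc (q ⟨FreeGroup.of i, by simp⟩) ≠ io (cc (q ⟨1, by simp⟩))},
    Set.finite_iUnion fun i => (Set.toFinite _).image _, Set.ext fun x => ⟨fun h t q hq => ?_, ?_⟩⟩
  · obtain ⟨i, q, hq', rfl⟩ := Set.mem_iUnion.1 hq
    intro e
    have e' : (fun s : ({1, FreeGroup.of i} : Finset (FreeGroup (Fin r))) => x (t⁻¹ * s)) = q := e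
    refine hq' ?_
    rw [← e']
    simpa using h t⁻¹ i
  · intro h g i
    by_contra hn
    exact h g⁻¹ ⟨{1, FreeGroup.of i}, fun s => x (g⁻¹⁻¹ * s)⟩
      (Set.mem_iUnion.2 ⟨i, _, by simpa using hn, rfl⟩) rfl

def S0 (a : ℕ) : Option Bool → Finset (Al a)
  | none => {none}
  | some b => univ.image fun u => some (b, u)

lemma mem_S0 {a : ℕ} (o : Option Bool) (y : Al a) : y ∈ S0 a o ↔ cc y = o := by
  rcases o with _ | b <;> rcases y with _ | ⟨b', u⟩ <;> simp [S0, cc, eq_comm]

lemma card_S0 {a : ℕ} (ha : 1 ≤ a) (o : Option Bool) : #(S0 a o) ≤ a := by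
  rcases o with _ | b
  · simpa [S0] using ha
  · exact card_image_le.trans (by simp)

theorem value (hr : 2 ≤ r) (a : ℕ) (ha : 1 ≤ a) {p : ℝ} (h0 : 0 < p) (h1 : p < 1) :
    ∃ S : Approx (FreeGroup (Fin r)), ent S (XX r a) = (p * Real.log a : ℝ) := by
  classical
  obtain ⟨s, hs, hE⟩ := good (ι := Fin r) (by simpa using hr) ff
  have a1 : (1 : ℝ) ≤ a := by exact_mod_cast ha
  have lim := (m1_div h0).mul_const (Real.log a)
  have low : ∀ F δ, 0 < δ → ∀ n, a ^ (2 * m1 p n) ≤ (Om (appr s h0 h1 hs) (XX r a) n F δ).ncard := by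
    intro F δ hδ n
    have hi : Function.Injective fun (u : Fin (m1 p n) × Bool → Fin a) (k : KK p n) =>
        (Sum.elim (fun k => some (k.2, u k)) (fun _ => none) k : Al a) := fun u u' h =>
      funext fun k => by simpa using congrFun h (.inl k)
    have := Set.ncard_range_of_injective hi
    rw [Nat.card_fun] at this
    simp only [Fintype.card_prod, Nat.card_eq_fintype_card, Fintype.card_fin,
      Fintype.card_bool] at this
    rw [mul_comm, ← this]
    refine Set.ncard_le_ncard ?_ (Set.toFinite (α := KK p n → Al a) _)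
    rintro _ ⟨u, rfl⟩
    have : {k : KK p n | ∃ x ∈ XX r a, ∀ g ∈ F, (Sum.elim (fun k => some (k.2, u k))
        (fun _ => none) (act s p n g⁻¹ k) : Al a) = x g} = Set.univ := by
      refine Set.eq_univ_of_forall fun k => ⟨_, fun g i => ?_, fun _ _ => rfl⟩
      rw [mul_inv_rev, act_mul]
      rcases act s p n g⁻¹ k with ⟨k, b⟩ | k
      · rw [act_l]; rfl
      · rw [act_r]; rfl
    refine le_trans ?_ ((Nat.cast_le (α := ℝ)).2 (congrArg Set.ncard this).ge)
    rw [Set.ncard_univ]
    exact mul_le_of_le_one_left (by positivity) (by linarith)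
  have pos : ∀ F δ, 0 < δ → ∀ n, 0 < (Om (appr s h0 h1 hs) (XX r a) n F δ).ncard :=
    fun F δ hδ n => lt_of_lt_of_le (by positivity) (low F δ hδ n)
  have ne : ∀ F δ, 0 < δ → ∀ n, Om (appr s h0 h1 hs) (XX r a) n F δ ≠ ∅ := fun F δ hδ n h => by
    have := pos F δ hδ n
    rw [h] at this; simp at this
  refine ⟨appr s h0 h1 hs, le_antisymm (EReal.le_of_forall_lt_iff_le.1 fun z hz => ?_)
    (EReal.ge_of_forall_gt_iff_ge.1 fun z hz => ?_)⟩
  swap
  · refine le_iInf fun F => le_iInf fun δ => le_iInf fun hδ =>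
      le_limsup_of_frequently_le (Eventually.frequently ?_)
    filter_upwards [lim.eventually (lt_mem_nhds (EReal.coe_lt_coe_iff.1 hz)),
      eventually_gt_atTop 0] with n hn hn0
    have n0 : (0 : ℝ) < n := by exact_mod_cast hn0
    rw [if_neg (ne F δ hδ n), EReal.coe_le_coe_iff]
    refine hn.le.trans ?_
    change _ ≤ _ / (Nat.card (KK p n) : ℝ)
    rw [cardK h0 h1, le_div_iff₀ (by positivity)]
    have := Real.log_le_log (by positivity) ((Nat.cast_le (α := ℝ)).2 (low F δ hδ n))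
    rw [Nat.cast_pow, Real.log_pow] at this
    refine le_trans (le_of_eq ?_) this
    push_cast; field_simp
  have hz' := EReal.coe_lt_coe_iff.1 hz
  set η := (z - p * Real.log a) / 3 with hη
  have η0 : 0 < η := by linarith
  obtain ⟨ε, ε0, hcount⟩ := count (2 * a + 1) η η0
  obtain ⟨δ1, δ0, hexp⟩ := hE (min ε (1 / 4)) (lt_min ε0 (by norm_num))
  set δ := min δ1 (1 / 4) * min (p / 4) (1 - p) with hδ
  have δp : 0 < δ := mul_pos (lt_min δ0 (by norm_num)) (lt_min (by positivity) (by linarith))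
  refine iInf_le_of_le (insert 1 (univ.image FreeGroup.of)) (iInf_le_of_le δ (iInf_le_of_le δp
    (limsup_le_of_le (by isBoundedDefault) ?_)))
  have lim9 : Tendsto (fun n : ℕ => Real.log 9 / n) atTop (𝓝 0) :=
    tendsto_const_div_atTop_nhds_zero_nat _
  filter_upwards [(m1_lim h0).eventually hexp, (m2_lim h0 h1).eventually hexp,
    eventually_gt_atTop 0, lim.eventually (gt_mem_nhds (lt_add_of_pos_right _ η0)),
    (m1_div h0).eventually (lt_mem_nhds (half_lt_self h0)), lim9.eventually (gt_mem_nhds η0)]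
    with n e1 e2 hn0 hn hm h9
  have n0 : (0 : ℝ) < n := by exact_mod_cast hn0
  rw [lt_div_iff₀ n0] at hm
  have g2 := m2_ge h0 h1 n
  have t1 : δ * (2 * n) ≤ min δ1 (1 / 4) * m1 p n := by
    rw [hδ, mul_assoc]
    refine mul_le_mul_of_nonneg_left ?_ (lt_min δ0 (by norm_num)).le
    nlinarith [min_le_left (p / 4) (1 - p)]
  have t2 : δ * (2 * n) ≤ min δ1 (1 / 4) * m2 p n := by
    rw [hδ, mul_assoc]
    refine mul_le_mul_of_nonneg_left ?_ (lt_min δ0 (by norm_num)).le
    nlinarith [min_le_right (p / 4) (1 - p)]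
  have m2p : (0 : ℝ) < m2 p n := lt_of_lt_of_le (by nlinarith) g2
  set S : D → KK p n → Finset (Al a) := fun x =>
    Sum.elim (fun k => S0 a (cond k.2 x.1 x.2)) (fun _ => S0 a none) with hS
  have sub : Om (appr s h0 h1 hs) (XX r a) n (insert 1 (univ.image FreeGroup.of)) δ ⊆
      ⋃ x : D, {ω : KK p n → Al a |
        (#{k | ω k ∉ S x k} : ℝ) ≤ ε * Fintype.card (KK p n)} := by
    intro ω hω
    change (1 - δ) * (Nat.card (KK p n) : ℝ) ≤ _ at hω
    have hb : ∀ i, (#{k : KK p n | cc (ω (act s p n (FreeGroup.of i)⁻¹ k)) ≠ io (cc (ω k))} : ℝ) ≤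
        δ * (2 * n) := fun i => by
      have e := card_filter_add_card_filter_not (s := univ)
        (fun k : KK p n => cc (ω (act s p n (FreeGroup.of i)⁻¹ k)) = io (cc (ω k)))
      rw [card_univ, ← Nat.card_eq_fintype_card] at e
      have e' := congrArg (Nat.cast (R := ℝ)) e
      rw [Nat.cast_add] at e'
      have : (1 - δ) * (Nat.card (KK p n) : ℝ) ≤ #{k : KK p n |
          cc (ω (act s p n (FreeGroup.of i)⁻¹ k)) = io (cc (ω k))} := by
        rw [← nc]
        refine hω.trans (Nat.cast_le.2 (Set.ncard_le_ncard ?_ (Set.toFinite (α := KK p n) _)))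
        rintro k ⟨x, hx, hk⟩
        have b1 : ω (act s p n 1⁻¹ k) = x 1 := hk 1 (by simp)
        have b2 : ω (act s p n (FreeGroup.of i)⁻¹ k) = x (FreeGroup.of i) := hk _ (by simp)
        rw [inv_one, act_one] at b1
        show cc _ = io _
        rw [b1, b2]; simpa using hx 1 i
      rw [cardK h0 h1] at this e'
      linarith
    simp only [split, act_l, act_r, Bool.not_true, Bool.not_false] at hb
    obtain ⟨x, hx⟩ := e1 (fun k => (cc (ω (.inl (k, true))), cc (ω (.inl (k, false))))) fun i => by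
      refine le_trans ?_ (t1.trans (mul_le_mul_of_nonneg_right (min_le_left _ _) (by positivity)))
      refine le_trans ?_ (hb i)
      refine le_trans ?_ (le_add_of_nonneg_right (by positivity))
      rw [← Nat.cast_add, Nat.cast_le]
      refine le_trans (card_le_card fun k hk => ?_) (card_union_le _ _)
      simp only [mem_filter, mem_univ, true_and, mem_union, ff, ne_eq, Prod.mk.injEq] at hk ⊢
      tauto
    have hb2 : ∀ i, (#{k | (cc (ω (.inr ((s _ i)⁻¹ k))), cc (ω (.inr ((s _ i)⁻¹ k)))) ≠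
        ff (cc (ω (.inr k)), cc (ω (.inr k)))} : ℝ) ≤ min δ1 (1 / 4) * m2 p n := fun i => by
      refine le_trans ?_ ((hb i).trans t2)
      refine le_trans ?_ (le_add_of_nonneg_left (by positivity))
      refine Nat.cast_le.2 (card_le_card fun k hk => ?_)
      simp only [mem_filter, mem_univ, true_and, ff, ne_eq, Prod.mk.injEq] at hk ⊢
      tauto
    obtain ⟨y, hy⟩ := e2 (fun k => (cc (ω (.inr k)), cc (ω (.inr k)))) fun i =>
      (hb2 i).trans (mul_le_mul_of_nonneg_right (min_le_left _ _) (by positivity))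
    have hy0 : y = (none, none) := by
      by_contra hne
      set i : Fin r := ⟨0, by omega⟩
      have q1 : #{k | (cc (ω (.inr ((s _ i)⁻¹ k))), cc (ω (.inr ((s _ i)⁻¹ k)))) ≠ y} =
          #{k | (cc (ω (.inr k)), cc (ω (.inr k))) ≠ y} := card_equiv (s _ i)⁻¹ fun k => by simp
      have q2 : (univ : Finset (Fin (m2 p n))) ⊆
          ((univ.filter fun k =>
            (cc (ω (.inr ((s _ i)⁻¹ k))), cc (ω (.inr ((s _ i)⁻¹ k)))) ≠ y) ∪
          (univ.filter fun k => (cc (ω (.inr k)), cc (ω (.inr k))) ≠ y)) ∪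
          (univ.filter fun k => (cc (ω (.inr ((s _ i)⁻¹ k))), cc (ω (.inr ((s _ i)⁻¹ k)))) ≠
            ff (cc (ω (.inr k)), cc (ω (.inr k)))) := fun k _ => by
        simp only [mem_union, mem_filter, mem_univ, true_and]
        exact (by decide : ∀ (y : D) (u v : Option Bool), y ≠ (none, none) →
          ((u, u) ≠ y ∨ (v, v) ≠ y) ∨ (u, u) ≠ ff (v, v)) y _ _ hne
      have q3 := (card_le_card q2).trans ((card_union_le _ _).trans
        (Nat.add_le_add_right (card_union_le _ _) _))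
      rw [q1, card_univ, Fintype.card_fin] at q3
      have q4 := (Nat.cast_le (α := ℝ)).2 q3
      push_cast at q4
      have q5 := hb2 i
      have q6 := mul_le_mul_of_nonneg_right (min_le_right δ1 (1 / 4)) m2p.le
      have q7 := mul_le_mul_of_nonneg_right (min_le_right ε (1 / 4)) m2p.le
      linarith
    refine Set.mem_iUnion.2 ⟨x, ?_⟩
    show (#{k : KK p n | ω k ∉ S x k} : ℝ) ≤ ε * Fintype.card (KK p n)
    rw [split, ← Nat.card_eq_fintype_card, cardK h0 h1]
    have w1 : ∀ b, (#{k | ω (.inl (k, b)) ∉ S x (.inl (k, b))} : ℝ) ≤ ε * m1 p n := fun b => by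
      refine le_trans (Nat.cast_le.2 (card_le_card fun k hk => ?_))
        (hx.trans (mul_le_mul_of_nonneg_right (min_le_left _ _) (by positivity)))
      simp only [mem_filter, mem_univ, true_and, hS, Sum.elim_inl, mem_S0] at hk ⊢
      rintro rfl
      cases b <;> exact hk rfl
    have w2 : (#{k | ω (.inr k) ∉ S x (.inr k)} : ℝ) ≤ ε * m2 p n := by
      refine le_trans (Nat.cast_le.2 (card_le_card fun k hk => ?_))
        (hy.trans (mul_le_mul_of_nonneg_right (min_le_left _ _) (by positivity)))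
      simp only [mem_filter, mem_univ, true_and, hS, Sum.elim_inr, mem_S0, hy0] at hk ⊢
      exact fun h => hk (congrArg Prod.fst h)
    rw [m2_eq h0 h1] at w2
    linarith [w1 true, w1 false]
  have up : ((Om (appr s h0 h1 hs) (XX r a) n (insert 1 (univ.image FreeGroup.of)) δ).ncard : ℝ) ≤
      9 * (Real.exp (η * (2 * n)) * a ^ (2 * m1 p n)) := by
    have u1 := (Set.ncard_le_ncard sub (Set.toFinite (α := KK p n → Al a) _)).trans
      (Set.ncard_iUnion_le_of_fintype _)
    refine ((Nat.cast_le (α := ℝ)).2 u1).trans ?_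
    rw [Nat.cast_sum]
    refine (sum_le_card_nsmul _ _ (Real.exp (η * (2 * n)) * a ^ (2 * m1 p n)) fun x _ => ?_).trans
      (by simp)
    refine (Nat.cast_le.2 (nc (K := KK p n → Al a) _).le).trans ?_
    refine (hcount (KK p n) (Al a) (S x) (Sum.elim (fun _ => (a : ℝ)) fun _ => 1) (by simp) ?_).trans
      (le_of_eq ?_)
    · rintro (k | k)
      · exact ⟨a1, Nat.cast_le.2 (card_S0 ha _)⟩
      · simp [hS, S0]
    · rw [← Nat.card_eq_fintype_card, cardK h0 h1, Fintype.prod_sum_type]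
      simp [mul_comm]
  rw [if_neg (ne _ δ δp n), EReal.coe_le_coe_iff]
  change _ / (Nat.card (KK p n) : ℝ) ≤ _
  rw [cardK h0 h1, div_le_iff₀ (by positivity)]
  refine (Real.log_le_log (by exact_mod_cast pos _ δ δp n) up).trans ?_
  rw [Real.log_mul (by norm_num) (by positivity), Real.log_mul (by positivity) (by positivity),
    Real.log_exp, Real.log_pow]
  rw [div_lt_iff₀ n0] at h9
  rw [div_mul_eq_mul_div, div_lt_iff₀ n0] at hn
  have : z = p * Real.log a + 3 * η := by rw [hη]; ring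
  rw [this]; push_cast
  nlinarith [mul_pos η0 n0]

end proof

theorem result (r : ℕ) (hr : 2 ≤ r) :
    {h : EReal | ∃ (S : Approx (FreeGroup (Fin r))) (A : Type) (_ : Finite A)
      (X : Set (FreeGroup (Fin r) → A)), IsSFT X ∧ h = ent S X} =
    {⊥} ∪ {h : EReal | ∃ x : ℝ, 0 ≤ x ∧ h = x} := by
  ext h
  constructor
  · rintro ⟨S, A, _, X, -, rfl⟩
    exact range_ent S X
  · rintro (rfl | ⟨x, hx, rfl⟩)
    · obtain ⟨S, -⟩ := value hr 1 le_rfl (p := 1 / 2) (by norm_num) (by norm_num)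
      refine ⟨S, Unit, inferInstance, ∅, ⟨{⟨∅, fun _ => ()⟩}, Set.finite_singleton _, ?_⟩, ?_⟩
      · symm
        exact Set.eq_empty_of_forall_notMem fun x hx => hx 1 _ rfl rfl
      · symm
        refine le_bot_iff.1 (iInf_le_of_le ∅ (iInf_le_of_le (1 / 2) (iInf_le_of_le (by norm_num)
          (limsup_le_of_le (by isBoundedDefault) ?_))))
        filter_upwards [(S.mul 1 1).eventually (lt_mem_nhds one_pos)] with n hn
        rw [if_pos]
        refine Set.eq_empty_of_forall_notMem fun ω hω => ?_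
        have h1 : (0 : ℝ) < Nat.card (S.K n) := by
          refine lt_of_le_of_ne (by positivity) fun h => ?_
          rw [← h] at hn; simp at hn
        simp only [Om, Set.mem_empty_iff_false, false_and, exists_false, Set.ofPred_false,
          Set.ncard_empty, Set.mem_ofPred_eq, Nat.cast_zero] at hω
        linarith
    · rcases hx.eq_or_lt with rfl | hx
      · obtain ⟨S, hS⟩ := value hr 1 le_rfl (p := 1 / 2) (by norm_num) (by norm_num)
        exact ⟨S, _, inferInstance, _, sft r 1, by rw [hS]; simp⟩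
      · obtain ⟨a, ha⟩ := exists_nat_gt (Real.exp x)
        have h1 : x < Real.log a := (Real.lt_log_iff_exp_lt ((Real.exp_pos x).trans ha)).2 ha
        have h2 : 1 ≤ a := by
          have := (Real.exp_pos x).trans ha
          exact Nat.cast_pos.1 this
        have h3 := hx.trans h1
        obtain ⟨S, hS⟩ := value hr a h2 (p := x / Real.log a) (by positivity)
          ((div_lt_one h3).2 h1)
        exact ⟨S, _, inferInstance, _, sft r a, by rw [hS, div_mul_cancel₀ _ h3.ne']⟩

end Pool.Agent.Results.MP_6ea370_an.Values
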